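import Pool.Agent.V11292.PSumE

/-!
# MP_dcd7a9: a fourth square among the sums `p_n + ... + p_{2n}`

For `n = 111008771` (where `p_n = 2274652151` and `p_{2n} = 4711447171`) the sum is
`387024194082134596 = 622112686 ^ 2`.
-/

set_option autoImplicit false

namespace Pool.Agent.Results.MP_dcd7a9_nt.FourthSquare

/-- `Nat.nth Nat.Prime (k - 1)` is the `k`-th prime `p_k` (`p_1 = 2`). -/
theorem result :
    ∑ k ∈ Finset.Icc 111008771 (2 * 111008771), Nat.nth Nat.Prime (k - 1) = 622112686 ^ 2 ∧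
    ¬ ∀ n : ℕ, 1 ≤ n → (IsSquare (∑ k ∈ Finset.Icc n (2 * n), Nat.nth Nat.Prime (k - 1)) ↔
      n = 3 ∨ n = 6 ∨ n = 4072) := by
  have h : ∑ k ∈ Finset.Icc 111008771 (2 * 111008771), Nat.nth Nat.Prime (k - 1) =
      622112686 ^ 2 := by
    rw [show 2 * 111008771 = 222017542 by norm_num, Pool.Agent.V11292.PS.main]
    norm_num
  refine ⟨h, fun hall => ?_⟩
  have h2 := (hall 111008771 (by norm_num)).1 ⟨622112686, by rw [h, pow_two]⟩
  norm_num at h2

end Pool.Agent.Results.MP_dcd7a9_nt.FourthSquare
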